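import Pool.Agent.Helper28_TP.DyS

/-!
# Basic facts: probability measures, measurability of walks, mean number of visitors of a cube
-/

set_option autoImplicit false

namespace Pool.Agent.TP.H18

open MeasureTheory ProbabilityTheory
open scoped ENNReal

instance instStep (k : ℕ) (s : ℝ) : IsProbabilityMeasure (stepLaw k s) := by
  unfold stepLaw
  infer_instance

instance instUnif (k : ℕ) : IsProbabilityMeasure (unif k) := by
  have : IsProbabilityMeasure (volume.restrict (Set.Ico (0 : ℝ) 1)) := ⟨by simp⟩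
  unfold unif
  infer_instance

instance instWalk (k : ℕ) (s : ℝ) : IsProbabilityMeasure (walkLaw k s) := by
  unfold walkLaw
  infer_instance

instance instMark (k : ℕ) (s : ℝ) : IsProbabilityMeasure (markLaw k s) := by
  unfold markLaw
  infer_instance

instance instConf (k : ℕ) (lam s : ℝ) : IsProbabilityMeasure (confLaw k lam s) := by
  unfold confLaw
  infer_instance

theorem meas_walk {k : ℕ} (i : ℕ) :
    Measurable (fun p : Sp k × (ℕ → Sp k) => walk p.1 p.2 i) := by
  unfold walk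
  refine measurable_pi_lambda _ fun a => ?_
  refine Measurable.add ?_ (Finset.measurable_sum _ fun j _ => ?_)
  · exact (measurable_pi_apply a).comp measurable_fst
  · exact (measurable_pi_apply a).comp ((measurable_pi_apply j).comp measurable_snd)

theorem meas_cube {k : ℕ} (y : Sp k) (κ : ℝ) : MeasurableSet (cube y κ) := by
  unfold cube
  simp only [Set.ofPred_forall]
  refine MeasurableSet.iInter fun a => ?_
  exact (measurableSet_le measurable_const (measurable_pi_apply a)).inter
    (measurableSet_lt (measurable_pi_apply a) measurable_const)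

/-- The set of trajectories that visit the cube at time `t`. -/
def vis {k : ℕ} (Y : Sp k) (κ : ℝ) (t : ℕ) : Set (Sp k × (ℕ → Sp k)) :=
  {p | walk p.1 p.2 t ∈ cube Y κ}

theorem meas_vis {k : ℕ} (Y : Sp k) (κ : ℝ) (t : ℕ) : MeasurableSet (vis Y κ t) :=
  meas_walk t (meas_cube Y κ)

theorem vol_cube {k : ℕ} (Y : Sp k) {κ : ℝ} (hκ : 0 < κ) :
    volume (cube Y κ) = ENNReal.ofReal (κ ^ (k + 2)) := by
  have h1 : cube Y κ = Set.pi Set.univ (fun a => Set.Ico (Y a) (Y a + κ)) := by
    ext x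
    simp [cube, Set.mem_pi]
  rw [h1, Real.volume_pi_Ico]
  simp only [add_sub_cancel_left, Finset.prod_const, Finset.card_univ, Fintype.card_fin]
  rw [ENNReal.ofReal_pow hκ.le]

theorem mean {k : ℕ} (s : ℝ) (Y : Sp k) {κ : ℝ} (hκ : 0 < κ) (t : ℕ) :
    ∫⁻ x, walkLaw k s {y | walk x y t ∈ cube Y κ} = ENNReal.ofReal (κ ^ (k + 2)) := by
  have hE := meas_vis Y κ t
  have h1 := Measure.prod_apply (μ := (volume : Measure (Sp k))) (ν := walkLaw k s) hE
  have h2 := Measure.prod_apply_symm (μ := (volume : Measure (Sp k))) (ν := walkLaw k s) hE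
  rw [h1] at h2
  have h3 : ∀ y : ℕ → Sp k, volume ((fun x => (x, y)) ⁻¹' vis Y κ t) =
      ENNReal.ofReal (κ ^ (k + 2)) := by
    intro y
    rw [← vol_cube Y hκ]
    have h4 : (fun x => (x, y)) ⁻¹' vis Y κ t =
        (fun x : Sp k => x + fun a => ∑ j ∈ Finset.range t, y j a) ⁻¹' cube Y κ := by
      ext x
      rfl
    rw [h4, measure_preimage_add_right]
  rw [lintegral_congr h3, lintegral_const, measure_univ, mul_one] at h2
  exact h2

/-- The trajectory of the node with data `m` of the cell `z`. -/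
def sh {k : ℕ} (z : Pt k) (m : Mk k) : Sp k × (ℕ → Sp k) := (fun a => (z a : ℝ) + m.1 a, m.2)

theorem meas_sh {k : ℕ} (z : Pt k) : Measurable (sh z) := by
  unfold sh
  refine Measurable.prodMk (measurable_pi_lambda _ fun a => ?_) measurable_snd
  exact measurable_const.add ((measurable_pi_apply a).comp measurable_fst)

theorem leb_set (hLEB : LebStmt) {k : ℕ} (s : ℝ) {𝒜 : Set (Sp k × (ℕ → Sp k))}
    (h𝒜 : MeasurableSet 𝒜) :
    ∑' z : Pt k, markLaw k s {m | sh z m ∈ 𝒜} = ∫⁻ x, walkLaw k s {y | (x, y) ∈ 𝒜} := by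
  have h1 := hLEB k s (𝒜.indicator 1) (measurable_one.indicator h𝒜)
  have h2 : ∀ z : Pt k, ∫⁻ m, 𝒜.indicator 1 ((fun a => (z a : ℝ) + m.1 a), m.2) ∂(markLaw k s) =
      markLaw k s {m | sh z m ∈ 𝒜} := by
    intro z
    have h3 : (fun m : Mk k => 𝒜.indicator (1 : Sp k × (ℕ → Sp k) → ℝ≥0∞)
        ((fun a => (z a : ℝ) + m.1 a), m.2)) = ({m | sh z m ∈ 𝒜} : Set (Mk k)).indicator 1 := by
      funext m
      change 𝒜.indicator (1 : Sp k × (ℕ → Sp k) → ℝ≥0∞) (sh z m) = _
      by_cases h : sh z m ∈ 𝒜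
      · rw [Set.indicator_of_mem (show m ∈ {m | sh z m ∈ 𝒜} from h), Set.indicator_of_mem h]
        rfl
      · rw [Set.indicator_of_notMem (show m ∉ {m | sh z m ∈ 𝒜} from h), Set.indicator_of_notMem h]
    rw [h3]
    exact lintegral_indicator_one (meas_sh z h𝒜)
  have h4 : ∀ x : Sp k, ∫⁻ y, 𝒜.indicator 1 (x, y) ∂(walkLaw k s) =
      walkLaw k s {y | (x, y) ∈ 𝒜} := by
    intro x
    have h3 : (fun y : ℕ → Sp k => 𝒜.indicator (1 : Sp k × (ℕ → Sp k) → ℝ≥0∞) (x, y)) =
        ({y | (x, y) ∈ 𝒜} : Set (ℕ → Sp k)).indicator 1 := by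
      funext m
      by_cases h : (x, m) ∈ 𝒜
      · rw [Set.indicator_of_mem (show m ∈ {y | (x, y) ∈ 𝒜} from h), Set.indicator_of_mem h]
        rfl
      · rw [Set.indicator_of_notMem (show m ∉ {y | (x, y) ∈ 𝒜} from h), Set.indicator_of_notMem h]
    rw [h3]
    exact lintegral_indicator_one (measurable_prodMk_left h𝒜)
  rw [tsum_congr h2, lintegral_congr h4] at h1
  exact h1

end Pool.Agent.TP.H18
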