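import Pool.Agent.Helper18_TP.Basic

/-!
# CHER: many boxes are sparse
-/

set_option autoImplicit false

namespace Pool.Agent.TP.H18

open MeasureTheory ProbabilityTheory Filter
open scoped ENNReal Topology

theorem exp_neg_le {x : ℝ} (hx : 0 ≤ x) : Real.exp (-x) ≤ 1 - x + x ^ 2 / 2 := by
  have h1 := Real.quadratic_le_exp_of_nonneg hx
  have h2 : 0 < 1 + x + x ^ 2 / 2 := by positivity
  have h3 : Real.exp (-x) ≤ 1 / (1 + x + x ^ 2 / 2) := by
    rw [Real.exp_neg, ← one_div]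
    exact one_div_le_one_div_of_le h2 h1
  refine h3.trans ?_
  rw [div_le_iff₀ h2]
  nlinarith [sq_nonneg (x ^ 2)]

section

variable {k : ℕ} {ι : Type} (𝒥 : Finset ι) (Y : ι → Sp k) (κ : ι → ℝ) (t : ι → ℕ) (th : ι → ℝ)

/-- Weighted number of visits. -/
noncomputable def VV (z : Pt k) (m : Mk k) : ℝ :=
  ∑ J ∈ 𝒥, th J * (vis (Y J) (κ J) (t J)).indicator (fun _ => (1 : ℝ)) (sh z m)

theorem ind_nonneg {α : Type} (S : Set α) (x : α) : 0 ≤ S.indicator (fun _ => (1 : ℝ)) x :=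
  Set.indicator_nonneg (fun _ _ => zero_le_one) x

theorem ind_le {α : Type} (S : Set α) (x : α) : S.indicator (fun _ => (1 : ℝ)) x ≤ 1 := by
  by_cases h : x ∈ S
  · rw [Set.indicator_of_mem h]
  · rw [Set.indicator_of_notMem h]
    exact zero_le_one

theorem VV_nonneg (hth : ∀ J, 0 ≤ th J) (z : Pt k) (m : Mk k) : 0 ≤ VV 𝒥 Y κ t th z m :=
  Finset.sum_nonneg fun J _ => mul_nonneg (hth J) (ind_nonneg _ _)

theorem VV_le (hth : ∀ J, 0 ≤ th J) (z : Pt k) (m : Mk k) :
    VV 𝒥 Y κ t th z m ≤ ∑ J ∈ 𝒥, th J :=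
  Finset.sum_le_sum fun J _ => mul_le_of_le_one_right (hth J) (ind_le _ _)

theorem meas_ind (z : Pt k) (J : ι) : Measurable (fun m : Mk k =>
    (vis (Y J) (κ J) (t J)).indicator (fun _ => (1 : ℝ)) (sh z m)) :=
  (measurable_const.indicator (meas_vis _ _ _)).comp (meas_sh z)

theorem meas_VV (z : Pt k) : Measurable (VV 𝒥 Y κ t th z) :=
  Finset.measurable_sum _ fun J _ => (meas_ind Y κ t z J).const_mul _

theorem int_bdd {f : Mk k → ℝ} (s : ℝ) (hf : Measurable f) {C : ℝ} (h : ∀ m, |f m| ≤ C) :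
    Integrable f (markLaw k s) :=
  Integrable.of_bound hf.aestronglyMeasurable C (ae_of_all _ h)

/-- Mean of the weighted number of visits. -/
theorem int_VV (s : ℝ) (z : Pt k) : ∫ m, VV 𝒥 Y κ t th z m ∂(markLaw k s) =
    ∑ J ∈ 𝒥, th J * (markLaw k s).real {m | sh z m ∈ vis (Y J) (κ J) (t J)} := by
  unfold VV
  rw [integral_finsetSum _ fun J _ => ?_]
  · refine Finset.sum_congr rfl fun J _ => ?_
    rw [integral_const_mul]
    congr 1
    have h1 : (fun m : Mk k => (vis (Y J) (κ J) (t J)).indicator (fun _ => (1 : ℝ)) (sh z m)) =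
        ({m | sh z m ∈ vis (Y J) (κ J) (t J)} : Set (Mk k)).indicator (fun _ => 1) := by
      funext m
      by_cases h : sh z m ∈ vis (Y J) (κ J) (t J)
      · rw [Set.indicator_of_mem (show m ∈ {m | sh z m ∈ vis (Y J) (κ J) (t J)} from h),
          Set.indicator_of_mem h]
      · rw [Set.indicator_of_notMem (show m ∉ {m | sh z m ∈ vis (Y J) (κ J) (t J)} from h),
          Set.indicator_of_notMem h]
    have hm : MeasurableSet ({m | sh z m ∈ vis (Y J) (κ J) (t J)} : Set (Mk k)) :=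
      meas_sh z (meas_vis _ _ _)
    rw [h1]
    have h2 := integral_indicator_const (μ := markLaw k s) (1 : ℝ) hm
    rw [smul_eq_mul, mul_one] at h2
    exact h2
  · exact (int_bdd s (meas_ind Y κ t z J) (C := 1) fun m => by
      rw [abs_of_nonneg (ind_nonneg _ _)]
      exact ind_le _ _).const_mul _

theorem int_VV2 (s : ℝ) (z : Pt k) : ∫ m, VV 𝒥 Y κ t th z m ^ 2 ∂(markLaw k s) =
    ∑ J ∈ 𝒥, ∑ J' ∈ 𝒥, th J * th J' * (markLaw k s).real
      {m | sh z m ∈ vis (Y J) (κ J) (t J) ∩ vis (Y J') (κ J') (t J')} := by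
  have h0 : ∀ m, VV 𝒥 Y κ t th z m ^ 2 = ∑ J ∈ 𝒥, ∑ J' ∈ 𝒥, th J * th J' *
      ({m | sh z m ∈ vis (Y J) (κ J) (t J) ∩ vis (Y J') (κ J') (t J')} : Set (Mk k)).indicator
        (fun _ => 1) m := by
    intro m
    unfold VV
    rw [sq, Finset.sum_mul_sum]
    refine Finset.sum_congr rfl fun J _ => Finset.sum_congr rfl fun J' _ => ?_
    have h1 : ({m | sh z m ∈ vis (Y J) (κ J) (t J) ∩ vis (Y J') (κ J') (t J')} :
        Set (Mk k)).indicator (fun _ => (1 : ℝ)) m =
        (vis (Y J) (κ J) (t J)).indicator (fun _ => (1 : ℝ)) (sh z m) *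
          (vis (Y J') (κ J') (t J')).indicator (fun _ => (1 : ℝ)) (sh z m) := by
      by_cases h : sh z m ∈ vis (Y J) (κ J) (t J)
      · by_cases h' : sh z m ∈ vis (Y J') (κ J') (t J')
        · rw [Set.indicator_of_mem h, Set.indicator_of_mem h', Set.indicator_of_mem
            (show m ∈ {m | sh z m ∈ vis (Y J) (κ J) (t J) ∩ vis (Y J') (κ J') (t J')} from
              ⟨h, h'⟩), mul_one]
        · rw [Set.indicator_of_notMem h', Set.indicator_of_notMem
            (show m ∉ {m | sh z m ∈ vis (Y J) (κ J) (t J) ∩ vis (Y J') (κ J') (t J')} from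
              fun h2 => h' h2.2), mul_zero]
      · rw [Set.indicator_of_notMem h, Set.indicator_of_notMem
            (show m ∉ {m | sh z m ∈ vis (Y J) (κ J) (t J) ∩ vis (Y J') (κ J') (t J')} from
              fun h2 => h h2.1), zero_mul]
    rw [h1]
    ring
  have hm : ∀ J J' : ι, MeasurableSet
      {m : Mk k | sh z m ∈ vis (Y J) (κ J) (t J) ∩ vis (Y J') (κ J') (t J')} := fun J J' =>
    meas_sh z ((meas_vis _ _ _).inter (meas_vis _ _ _))
  have hi : ∀ J J' : ι, Integrable (fun m => th J * th J' *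
      ({m | sh z m ∈ vis (Y J) (κ J) (t J) ∩ vis (Y J') (κ J') (t J')} : Set (Mk k)).indicator
        (fun _ => (1 : ℝ)) m) (markLaw k s) := fun J J' =>
    (int_bdd s (measurable_const.indicator (hm J J')) (C := 1) fun m => by
      rw [abs_of_nonneg (ind_nonneg _ _)]
      exact ind_le _ _).const_mul _
  simp only [h0]
  rw [integral_finsetSum _ fun J _ => integrable_finsetSum _ fun J' _ => hi J J']
  refine Finset.sum_congr rfl fun J _ => ?_
  rw [integral_finsetSum _ fun J' _ => hi J J']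
  refine Finset.sum_congr rfl fun J' _ => ?_
  rw [integral_const_mul]
  have h2 := integral_indicator_const (μ := markLaw k s) (1 : ℝ) (hm J J')
  rw [smul_eq_mul, mul_one] at h2
  exact congrArg _ h2

/-- The function for the Laplace functional. -/
noncomputable def gg (z : Pt k) (m : Mk k) : ENNReal :=
  ENNReal.ofReal (Real.exp (-(VV 𝒥 Y κ t th z m)))

theorem meas_gg (z : Pt k) : Measurable (gg 𝒥 Y κ t th z) :=
  ENNReal.measurable_ofReal.comp (Real.measurable_exp.comp (meas_VV 𝒥 Y κ t th z).neg)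

theorem int_gg (hth : ∀ J, 0 ≤ th J) (s : ℝ) (z : Pt k) :
    (∫⁻ m, gg 𝒥 Y κ t th z m ∂(markLaw k s)).toReal ≤
      1 - ∫ m, VV 𝒥 Y κ t th z m ∂(markLaw k s) +
        (∫ m, VV 𝒥 Y κ t th z m ^ 2 ∂(markLaw k s)) / 2 := by
  have hV := meas_VV 𝒥 Y κ t th z
  have hE : Measurable (fun m => Real.exp (-(VV 𝒥 Y κ t th z m))) :=
    Real.measurable_exp.comp hV.neg
  have h1 : (∫⁻ m, gg 𝒥 Y κ t th z m ∂(markLaw k s)).toReal =
      ∫ m, Real.exp (-(VV 𝒥 Y κ t th z m)) ∂(markLaw k s) := by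
    rw [integral_eq_lintegral_of_nonneg_ae (ae_of_all _ fun m => (Real.exp_pos _).le)
      hE.aestronglyMeasurable]
    rfl
  have i1 : Integrable (fun m => VV 𝒥 Y κ t th z m) (markLaw k s) :=
    int_bdd s hV (C := ∑ J ∈ 𝒥, th J) fun m => by
      rw [abs_of_nonneg (VV_nonneg 𝒥 Y κ t th hth z m)]
      exact VV_le 𝒥 Y κ t th hth z m
  have i2 : Integrable (fun m => VV 𝒥 Y κ t th z m ^ 2) (markLaw k s) :=
    int_bdd s (hV.pow_const 2) (C := (∑ J ∈ 𝒥, th J) ^ 2) fun m => by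
      rw [abs_of_nonneg (sq_nonneg _)]
      exact pow_le_pow_left₀ (VV_nonneg 𝒥 Y κ t th hth z m) (VV_le 𝒥 Y κ t th hth z m) 2
  have i3 : Integrable (fun m => Real.exp (-(VV 𝒥 Y κ t th z m))) (markLaw k s) :=
    int_bdd s hE (C := 1) fun m => by
      rw [abs_of_nonneg (Real.exp_pos _).le]
      exact Real.exp_le_one_iff.2 (neg_nonpos.2 (VV_nonneg 𝒥 Y κ t th hth z m))
  have h2 : ∫ m, (1 - VV 𝒥 Y κ t th z m + VV 𝒥 Y κ t th z m ^ 2 / 2) ∂(markLaw k s) =
      1 - ∫ m, VV 𝒥 Y κ t th z m ∂(markLaw k s) +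
        (∫ m, VV 𝒥 Y κ t th z m ^ 2 ∂(markLaw k s)) / 2 := by
    have i4 : Integrable (fun m => 1 - VV 𝒥 Y κ t th z m) (markLaw k s) :=
      (integrable_const 1).sub i1
    rw [integral_add i4 (i2.div_const 2), integral_sub (integrable_const _) i1, integral_div]
    simp
  rw [h1, ← h2]
  exact integral_mono i3 (((integrable_const _).sub i1).add (i2.div_const 2)) fun m =>
    exp_neg_le (VV_nonneg 𝒥 Y κ t th hth z m)

end

/-- The nodes of the cells of `Z` in the cube. -/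
theorem count_le {k : ℕ} (Z : Finset (Pt k)) (Y : Sp k) (κ : ℝ) (t : ℕ) (ω : Cf k) (x : ℝ)
    (h : ¬ many Y κ t ω ⌈x⌉₊) :
    ∑ z ∈ Z, ∑ j ∈ Finset.range (ω z).1,
      (vis Y κ t).indicator (fun _ => (1 : ℝ)) (sh z ((ω z).2 j)) ≤ x := by
  classical
  have h1 : ∑ z ∈ Z, ∑ j ∈ Finset.range (ω z).1,
      (vis Y κ t).indicator (fun _ => (1 : ℝ)) (sh z ((ω z).2 j)) =
      (((Z.sigma fun z => Finset.range (ω z).1).filter
        (fun p => sh p.1 ((ω p.1).2 p.2) ∈ vis Y κ t)).card : ℝ) := by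
    rw [Finset.sum_sigma', Finset.card_filter]
    push_cast
    refine Finset.sum_congr rfl fun p _ => ?_
    by_cases hp : sh p.1 ((ω p.1).2 p.2) ∈ vis Y κ t
    · rw [Set.indicator_of_mem hp, if_pos hp]
    · rw [Set.indicator_of_notMem hp, if_neg hp]
  rw [h1]
  set F := (Z.sigma fun z => Finset.range (ω z).1).filter
        (fun p => sh p.1 ((ω p.1).2 p.2) ∈ vis Y κ t) with hF
  have h2 : (F.image (fun p : (_ : Pt k) × ℕ => ((p.1, p.2) : Pt k × ℕ))).card = F.card := by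
    refine Finset.card_image_of_injOn fun p _ q _ hpq => ?_
    obtain ⟨p1, p2⟩ := p
    obtain ⟨q1, q2⟩ := q
    simp only [Prod.mk.injEq] at hpq
    obtain ⟨rfl, rfl⟩ := hpq
    rfl
  by_contra h3
  push Not at h3
  refine h ⟨F.image (fun p : (_ : Pt k) × ℕ => ((p.1, p.2) : Pt k × ℕ)), ?_, ?_⟩
  · rw [h2]
    exact Nat.ceil_le.2 h3.le
  · intro v hv
    obtain ⟨p, hp, rfl⟩ := Finset.mem_image.1 hv
    rw [hF, Finset.mem_filter, Finset.mem_sigma, Finset.mem_range] at hp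
    exact ⟨hp.1.2, hp.2⟩

theorem cher (hLF : LfStmt) (hLEB : LebStmt) : CherStmt := by
  intro k lam s ε hlam hs hε hε1 ι 𝒥 Y κ t th hκ hth
  set A : Set (Cf k) := {ω | ∀ J ∈ 𝒥, ¬ many (Y J) (κ J) (t J) ω
    ⌈(1 - ε) * lam * κ J ^ (k + 2)⌉₊} with hA
  set X : ℝ := ∑ J ∈ 𝒥, th J * κ J ^ (k + 2) with hX
  set S : ℝ := ∑ J ∈ 𝒥, ∑ J' ∈ 𝒥, th J * th J' * (∫⁻ x, walkLaw k s {y | walk x y (t J) ∈
          cube (Y J) (κ J) ∧ walk x y (t J') ∈ cube (Y J') (κ J')}).toReal with hS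
  -- finiteness
  have hb : ∀ J, HasSum (fun z : Pt k => (markLaw k s).real
      {m | sh z m ∈ vis (Y J) (κ J) (t J)}) (κ J ^ (k + 2)) := by
    intro J
    have h1 := leb_set hLEB s (meas_vis (Y J) (κ J) (t J))
    have h2 : ∫⁻ x, walkLaw k s {y | (x, y) ∈ vis (Y J) (κ J) (t J)} =
      ENNReal.ofReal (κ J ^ (k + 2)) := mean s (Y J) (hκ J) (t J)
    rw [h2] at h1
    have h3 : ∑' z : Pt k, markLaw k s {m | sh z m ∈ vis (Y J) (κ J) (t J)} ≠ ⊤ := by
      rw [h1]
      exact ENNReal.ofReal_ne_top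
    have h4 := ENNReal.hasSum_toReal h3
    rw [← ENNReal.tsum_toReal_eq (fun _ => measure_ne_top _ _), h1,
      ENNReal.toReal_ofReal (pow_pos (hκ J) _).le] at h4
    exact h4
  have ha : ∀ J J', ∀ Z : Finset (Pt k), ∑ z ∈ Z, (markLaw k s).real
      {m | sh z m ∈ vis (Y J) (κ J) (t J) ∩ vis (Y J') (κ J') (t J')} ≤
      (∫⁻ x, walkLaw k s {y | walk x y (t J) ∈ cube (Y J) (κ J) ∧
        walk x y (t J') ∈ cube (Y J') (κ J')}).toReal := by
    intro J J' Z
    have h1 := leb_set hLEB s ((meas_vis (Y J) (κ J) (t J)).inter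
      (meas_vis (Y J') (κ J') (t J')))
    have h2 : ∫⁻ x, walkLaw k s {y | (x, y) ∈ vis (Y J) (κ J) (t J) ∩
        vis (Y J') (κ J') (t J')} ≤ ENNReal.ofReal (κ J ^ (k + 2)) := by
      rw [← mean s (Y J) (hκ J) (t J)]
      exact lintegral_mono fun x => measure_mono fun y hy => hy.1
    have h3 : ∑' z : Pt k, markLaw k s {m | sh z m ∈ vis (Y J) (κ J) (t J) ∩
        vis (Y J') (κ J') (t J')} ≠ ⊤ := by
      rw [h1]
      exact (h2.trans_lt ENNReal.ofReal_lt_top).ne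
    have h4 := ENNReal.hasSum_toReal h3
    rw [← ENNReal.tsum_toReal_eq (fun _ => measure_ne_top _ _), h1] at h4
    exact sum_le_hasSum Z (fun z _ => ENNReal.toReal_nonneg) h4
  -- the bound for a finite set of cells
  have hmain : ∀ Z : Finset (Pt k), (confLaw k lam s).real A ≤
      Real.exp ((1 - ε) * lam * X - lam * (∑ J ∈ 𝒥, th J * ∑ z ∈ Z, (markLaw k s).real
        {m | sh z m ∈ vis (Y J) (κ J) (t J)} - S / 2)) := by
    intro Z
    have h1 := hLF k lam s hlam.le Z (gg 𝒥 Y κ t th) (meas_gg 𝒥 Y κ t th) (fun z m => by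
      unfold gg
      rw [← ENNReal.ofReal_one]
      exact ENNReal.ofReal_le_ofReal (Real.exp_le_one_iff.2
        (neg_nonpos.2 (VV_nonneg 𝒥 Y κ t th hth z m))))
    have hmeas : Measurable (fun ω : Cf k => ∏ z ∈ Z, ∏ j ∈ Finset.range (ω z).1,
        gg 𝒥 Y κ t th z ((ω z).2 j)) := by
      refine Finset.measurable_prod _ fun z _ => ?_
      have h2 : Measurable (fun p : ℕ × (ℕ → Mk k) => ∏ j ∈ Finset.range p.1,
          gg 𝒥 Y κ t th z (p.2 j)) := by
        refine measurable_from_prod_countable_right fun n => ?_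
        change Measurable (fun y : ℕ → Mk k => ∏ j ∈ Finset.range n, gg 𝒥 Y κ t th z (y j))
        exact Finset.measurable_prod _ fun j _ =>
          (meas_gg 𝒥 Y κ t th z).comp (measurable_pi_apply j)
      exact h2.comp (measurable_pi_apply z)
    have hsub : A ⊆ {ω | ENNReal.ofReal (Real.exp (-((1 - ε) * lam * X))) ≤
        ∏ z ∈ Z, ∏ j ∈ Finset.range (ω z).1, gg 𝒥 Y κ t th z ((ω z).2 j)} := by
      intro ω hω
      have h3 : ∏ z ∈ Z, ∏ j ∈ Finset.range (ω z).1, gg 𝒥 Y κ t th z ((ω z).2 j) =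
          ENNReal.ofReal (Real.exp (-(∑ z ∈ Z, ∑ j ∈ Finset.range (ω z).1,
            VV 𝒥 Y κ t th z ((ω z).2 j)))) := by
        unfold gg
        rw [← Finset.sum_neg_distrib, Real.exp_sum, ENNReal.ofReal_prod_of_nonneg
          (fun z _ => (Real.exp_pos _).le)]
        refine Finset.prod_congr rfl fun z _ => ?_
        rw [← Finset.sum_neg_distrib, Real.exp_sum, ENNReal.ofReal_prod_of_nonneg
          (fun z _ => (Real.exp_pos _).le)]
      rw [Set.mem_ofPred_eq, h3]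
      refine ENNReal.ofReal_le_ofReal (Real.exp_le_exp.2 (neg_le_neg ?_))
      have h4 : ∑ z ∈ Z, ∑ j ∈ Finset.range (ω z).1, VV 𝒥 Y κ t th z ((ω z).2 j) =
          ∑ J ∈ 𝒥, th J * ∑ z ∈ Z, ∑ j ∈ Finset.range (ω z).1,
            (vis (Y J) (κ J) (t J)).indicator (fun _ => (1 : ℝ)) (sh z ((ω z).2 j)) := by
        unfold VV
        simp only [Finset.mul_sum]
        rw [Finset.sum_comm]
        conv_rhs => rw [Finset.sum_comm]
        rw [Finset.sum_comm]
        refine Finset.sum_congr rfl fun z _ => ?_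
        rw [Finset.sum_comm]
      rw [h4, hX, Finset.mul_sum]
      refine Finset.sum_le_sum fun J hJ => ?_
      have h5 := count_le Z (Y J) (κ J) (t J) ω _ (hω J hJ)
      calc _ ≤ th J * ((1 - ε) * lam * κ J ^ (k + 2)) := mul_le_mul_of_nonneg_left h5 (hth J)
        _ = _ := by ring
    have h4 := mul_meas_ge_le_lintegral (μ := confLaw k lam s) hmeas
      (ENNReal.ofReal (Real.exp (-((1 - ε) * lam * X))))
    rw [h1] at h4
    have h5 : ENNReal.ofReal (Real.exp (-((1 - ε) * lam * X))) * confLaw k lam s A ≤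
        ∏ z ∈ Z, ENNReal.ofReal (Real.exp (-(lam * (1 -
          (∫⁻ m, gg 𝒥 Y κ t th z m ∂(markLaw k s)).toReal)))) :=
      (mul_le_mul_right (measure_mono hsub) _).trans h4
    rw [← ENNReal.ofReal_prod_of_nonneg (fun z _ => (Real.exp_pos _).le), ← Real.exp_sum] at h5
    have h6 : Real.exp (-((1 - ε) * lam * X)) * (confLaw k lam s).real A ≤
        Real.exp (∑ z ∈ Z, -(lam * (1 -
          (∫⁻ m, gg 𝒥 Y κ t th z m ∂(markLaw k s)).toReal))) := by
      have h7 := ENNReal.toReal_mono ENNReal.ofReal_ne_top h5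
      rw [ENNReal.toReal_mul, ENNReal.toReal_ofReal (Real.exp_pos _).le,
        ENNReal.toReal_ofReal (Real.exp_pos _).le] at h7
      exact h7
    have h8 : ∑ z ∈ Z, -(lam * (1 - (∫⁻ m, gg 𝒥 Y κ t th z m ∂(markLaw k s)).toReal)) ≤
        - (lam * (∑ J ∈ 𝒥, th J * ∑ z ∈ Z, (markLaw k s).real
        {m | sh z m ∈ vis (Y J) (κ J) (t J)} - S / 2)) := by
      have h9 : ∀ z ∈ Z, -(lam * (1 - (∫⁻ m, gg 𝒥 Y κ t th z m ∂(markLaw k s)).toReal)) ≤
          -(lam * (∑ J ∈ 𝒥, th J * (markLaw k s).real {m | sh z m ∈ vis (Y J) (κ J) (t J)})) +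
          lam / 2 * ∑ J ∈ 𝒥, ∑ J' ∈ 𝒥, th J * th J' * (markLaw k s).real
            {m | sh z m ∈ vis (Y J) (κ J) (t J) ∩ vis (Y J') (κ J') (t J')} := by
        intro z _
        have h10 := int_gg 𝒥 Y κ t th hth s z
        rw [int_VV, int_VV2] at h10
        nlinarith [mul_le_mul_of_nonneg_left h10 hlam.le]
      refine (Finset.sum_le_sum h9).trans ?_
      rw [Finset.sum_add_distrib, Finset.sum_neg_distrib, ← Finset.mul_sum, ← Finset.mul_sum]
      have h11 : ∑ z ∈ Z, ∑ J ∈ 𝒥, th J * (markLaw k s).real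
          {m | sh z m ∈ vis (Y J) (κ J) (t J)} = ∑ J ∈ 𝒥, th J * ∑ z ∈ Z, (markLaw k s).real
          {m | sh z m ∈ vis (Y J) (κ J) (t J)} := by
        rw [Finset.sum_comm]
        exact Finset.sum_congr rfl fun J _ => by rw [Finset.mul_sum]
      have h12 : ∑ z ∈ Z, ∑ J ∈ 𝒥, ∑ J' ∈ 𝒥, th J * th J' * (markLaw k s).real
            {m | sh z m ∈ vis (Y J) (κ J) (t J) ∩ vis (Y J') (κ J') (t J')} ≤ S := by
        rw [Finset.sum_comm, hS]
        refine Finset.sum_le_sum fun J _ => ?_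
        rw [Finset.sum_comm]
        refine Finset.sum_le_sum fun J' _ => ?_
        rw [← Finset.mul_sum]
        exact mul_le_mul_of_nonneg_left (ha J J' Z) (mul_nonneg (hth J) (hth J'))
      rw [h11]
      nlinarith [mul_le_mul_of_nonneg_left h12 hlam.le]
    have h13 := h6.trans (Real.exp_le_exp.2 h8)
    have h14 : (confLaw k lam s).real A = Real.exp ((1 - ε) * lam * X) *
        (Real.exp (-((1 - ε) * lam * X)) * (confLaw k lam s).real A) := by
      rw [← mul_assoc, ← Real.exp_add, add_neg_cancel, Real.exp_zero, one_mul]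
    rw [h14, show (1 - ε) * lam * X - lam * (∑ J ∈ 𝒥, th J * ∑ z ∈ Z, (markLaw k s).real
        {m | sh z m ∈ vis (Y J) (κ J) (t J)} - S / 2) = (1 - ε) * lam * X +
        -(lam * (∑ J ∈ 𝒥, th J * ∑ z ∈ Z, (markLaw k s).real
        {m | sh z m ∈ vis (Y J) (κ J) (t J)} - S / 2)) by ring, Real.exp_add]
    exact mul_le_mul_of_nonneg_left h13 (Real.exp_pos _).le
  -- the limit
  have hlim : Tendsto (fun Z : Finset (Pt k) => Real.exp ((1 - ε) * lam * X - lam *
      (∑ J ∈ 𝒥, th J * ∑ z ∈ Z, (markLaw k s).real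
        {m | sh z m ∈ vis (Y J) (κ J) (t J)} - S / 2))) atTop
      (𝓝 (Real.exp ((1 - ε) * lam * X - lam * (X - S / 2)))) := by
    refine (Real.continuous_exp.tendsto _).comp ?_
    refine tendsto_const_nhds.sub (Tendsto.const_mul _ (Tendsto.sub_const ?_ _))
    exact tendsto_finsetSum _ fun J _ => Tendsto.const_mul _ (hb J)
  have h1 := ge_of_tendsto' hlim hmain
  rw [show (1 - ε) * lam * X - lam * (X - S / 2) = -(lam * (ε * X - S / 2)) by ring] at h1
  have h2 : confLaw k lam s A = ENNReal.ofReal ((confLaw k lam s).real A) := by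
    rw [Measure.real, ENNReal.ofReal_toReal (measure_ne_top _ _)]
  rw [h2]
  exact ENNReal.ofReal_le_ofReal h1

end Pool.Agent.TP.H18
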