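import Pool.Agent.Helper18_TP.Basic

/-!
# DENS: few times have a sparse box
-/

set_option autoImplicit false

namespace Pool.Agent.TP.H18

open MeasureTheory ProbabilityTheory Filter
open scoped ENNReal Topology

open Classical in
theorem dens (hCHB : ChbStmt) (hDYA : DyaStmt) : DensStmt := by
  intro k lam s ε κ₀ hlam hs hε hε1 hκ hκs C₂ v hv
  obtain ⟨C₀, hC₀, hC⟩ := hCHB k lam s ε κ₀ hlam hs hε hε1 hκ hκs (C₂ + (4 + Real.log 3) / v)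
  refine ⟨C₀, hC₀, fun A τ hτ Bo hBo => ?_⟩
  obtain ⟨hD1, hD2⟩ := hDYA A
  set U : Finset (ℕ × ℕ) := Finset.range (A + 1) ×ˢ Finset.range (2 ^ (A + 1)) with hU
  set 𝒞 : Finset (Finset (ℕ × ℕ)) := U.powerset.filter
    (fun 𝒥 => GoodJ A 𝒥 ∧ v * 2 ^ A ≤ ∑ J ∈ 𝒥, (2 : ℝ) ^ J.1) with h𝒞
  set ex : (𝒥 : Finset (ℕ × ℕ)) → ((J : ℕ × ℕ) → J ∈ 𝒥 → Sp k) → ℕ × ℕ → Sp k :=
    fun 𝒥 f J => if h : J ∈ 𝒥 then f J h else 0 with hex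
  have hGU : ∀ 𝒥 : Finset (ℕ × ℕ), GoodJ A 𝒥 → 𝒥 ⊆ U := by
    intro 𝒥 hG J hJ
    obtain ⟨h1, h2, h3⟩ := hG.1 J hJ
    rw [hU, Finset.mem_product, Finset.mem_range, Finset.mem_range]
    refine ⟨by omega, ?_⟩
    have h4 : 1 ≤ 2 ^ J.1 := Nat.one_le_two_pow
    have h5 : (J.2 + 1) * 1 ≤ (J.2 + 1) * 2 ^ J.1 := Nat.mul_le_mul_left _ h4
    omega
  have hsub : {ω : Cf k | v * 2 ^ A ≤ (((Finset.Ico (2 ^ A) (2 ^ (A + 1))).filter (fun q =>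
        ∃ a ≤ A, ∃ y ∈ Bo a (q / 2 ^ a), spa lam ε κ₀ τ a (q / 2 ^ a) y ω)).card : ℝ)} ⊆
      ⋃ 𝒥 ∈ 𝒞, ⋃ f ∈ 𝒥.pi (fun J => Bo J.1 J.2),
        {ω | ∀ J ∈ 𝒥, spa lam ε κ₀ τ J.1 J.2 (ex 𝒥 f J) ω} := by
    intro ω hω
    rw [Set.mem_ofPred_eq] at hω
    obtain ⟨𝒥, hG, hbad, hcov⟩ := hD2 (fun a j => ∃ y ∈ Bo a j, spa lam ε κ₀ τ a j y ω)
    have h1 : ((Finset.Ico (2 ^ A) (2 ^ (A + 1))).filter (fun q =>
        ∃ a ≤ A, ∃ y ∈ Bo a (q / 2 ^ a), spa lam ε κ₀ τ a (q / 2 ^ a) y ω)) ⊆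
        𝒥.biUnion (fun J => Finset.Ico (J.2 * 2 ^ J.1) ((J.2 + 1) * 2 ^ J.1)) := by
      intro q hq
      rw [Finset.mem_filter] at hq
      obtain ⟨J, hJ, h2, h3⟩ := hcov q hq.1 hq.2
      exact Finset.mem_biUnion.2 ⟨J, hJ, Finset.mem_Ico.2 ⟨h2, h3⟩⟩
    have h2 : ((((Finset.Ico (2 ^ A) (2 ^ (A + 1))).filter (fun q =>
        ∃ a ≤ A, ∃ y ∈ Bo a (q / 2 ^ a), spa lam ε κ₀ τ a (q / 2 ^ a) y ω)).card : ℕ) : ℝ) ≤
        ∑ J ∈ 𝒥, (2 : ℝ) ^ J.1 := by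
      have h3 := (Finset.card_le_card h1).trans Finset.card_biUnion_le
      have h4 : ∑ J ∈ 𝒥, (Finset.Ico (J.2 * 2 ^ J.1) ((J.2 + 1) * 2 ^ J.1)).card =
          ∑ J ∈ 𝒥, 2 ^ J.1 := by
        refine Finset.sum_congr rfl fun J _ => ?_
        rw [Nat.card_Ico, add_mul, one_mul, Nat.add_sub_cancel_left]
      rw [h4] at h3
      calc _ ≤ ((∑ J ∈ 𝒥, 2 ^ J.1 : ℕ) : ℝ) := by exact_mod_cast h3
        _ = _ := by push_cast; rfl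
    have h5 : 𝒥 ∈ 𝒞 := by
      rw [h𝒞, Finset.mem_filter, Finset.mem_powerset]
      exact ⟨hGU 𝒥 hG, hG, hω.trans h2⟩
    choose! y hy1 hy2 using hbad
    refine Set.mem_iUnion₂.2 ⟨𝒥, h5, Set.mem_iUnion₂.2 ⟨fun J _ => y J, ?_, ?_⟩⟩
    · exact Finset.mem_pi.2 fun J hJ => hy1 J hJ
    · rw [Set.mem_ofPred_eq]
      intro J hJ
      rw [hex]
      simp only [hJ, dif_pos]
      exact hy2 J hJ
  refine (measure_mono hsub).trans ?_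
  have h1 : ∀ 𝒥 ∈ 𝒞, confLaw k lam s (⋃ f ∈ 𝒥.pi (fun J => Bo J.1 J.2),
        {ω | ∀ J ∈ 𝒥, spa lam ε κ₀ τ J.1 J.2 (ex 𝒥 f J) ω}) ≤
      ENNReal.ofReal (Real.exp (-((4 + Real.log 3) * 2 ^ A))) := by
    intro 𝒥 h𝒥
    rw [h𝒞, Finset.mem_filter] at h𝒥
    obtain ⟨-, hG, hv2⟩ := h𝒥
    refine (measure_biUnion_finset_le _ _).trans ?_
    have h2 : ∀ f ∈ 𝒥.pi (fun J => Bo J.1 J.2),
        confLaw k lam s {ω | ∀ J ∈ 𝒥, spa lam ε κ₀ τ J.1 J.2 (ex 𝒥 f J) ω} ≤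
        ENNReal.ofReal (Real.exp (-((C₂ + (4 + Real.log 3) / v) * ∑ J ∈ 𝒥, (2 : ℝ) ^ J.1))) :=
      fun f _ => hC A τ hτ 𝒥 hG (ex 𝒥 f)
    refine (Finset.sum_le_sum h2).trans ?_
    rw [Finset.sum_const, Finset.card_pi, nsmul_eq_mul]
    have h3 : ((∏ J ∈ 𝒥, (Bo J.1 J.2).card : ℕ) : ENNReal) ≤
        ENNReal.ofReal (Real.exp (C₂ * ∑ J ∈ 𝒥, (2 : ℝ) ^ J.1)) := by
      rw [← ENNReal.ofReal_natCast]
      refine ENNReal.ofReal_le_ofReal ?_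
      rw [Finset.mul_sum, Real.exp_sum]
      push_cast
      exact Finset.prod_le_prod (fun _ _ => Nat.cast_nonneg _) fun J _ => hBo J.1 J.2
    refine (mul_le_mul_left h3 _).trans ?_
    rw [← ENNReal.ofReal_mul (Real.exp_pos _).le, ← Real.exp_add]
    refine ENNReal.ofReal_le_ofReal (Real.exp_le_exp.2 ?_)
    have h4 : 0 ≤ (4 + Real.log 3) / v := by
      have := Real.log_nonneg (show (1 : ℝ) ≤ 3 by norm_num)
      positivity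
    have h5 : (4 + Real.log 3) / v * (v * 2 ^ A) ≤
        (4 + Real.log 3) / v * ∑ J ∈ 𝒥, (2 : ℝ) ^ J.1 := mul_le_mul_of_nonneg_left hv2 h4
    have h6 : (4 + Real.log 3) / v * (v * 2 ^ A) = (4 + Real.log 3) * 2 ^ A := by
      field_simp
    nlinarith
  refine (measure_biUnion_finset_le _ _).trans ((Finset.sum_le_sum h1).trans ?_)
  rw [Finset.sum_const, nsmul_eq_mul]
  have h2 : (𝒞.card : ENNReal) ≤ ENNReal.ofReal (Real.exp (Real.log 3 * 2 ^ A)) := by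
    have h3 := hD1 𝒞 fun 𝒥 h𝒥 => (Finset.mem_filter.1 h𝒥).2.1
    rw [← ENNReal.ofReal_natCast]
    refine ENNReal.ofReal_le_ofReal ?_
    calc (𝒞.card : ℝ) ≤ ((3 ^ 2 ^ A : ℕ) : ℝ) := by exact_mod_cast h3
      _ = Real.exp (Real.log 3 * 2 ^ A) := by
        rw [mul_comm, Nat.cast_pow]
        have h4 : ((2 : ℝ) ^ A) = ((2 ^ A : ℕ) : ℝ) := by push_cast; rfl
        rw [h4, Real.exp_nat_mul, Real.exp_log (by norm_num)]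
        norm_num
  refine (mul_le_mul_left h2 _).trans ?_
  rw [← ENNReal.ofReal_mul (Real.exp_pos _).le, ← Real.exp_add]
  refine ENNReal.ofReal_le_ofReal (Real.exp_le_exp.2 (le_of_eq ?_))
  ring

end Pool.Agent.TP.H18
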