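import Pool.Agent.Helper28_TP.StS

/-!
# ORTH: the square root trick
-/

set_option autoImplicit false

namespace Pool.Agent.TP.H18

/-- Sign of a Boolean. -/
def sg (b : Bool) : ℤ := if b then 1 else -1

theorem sg_mul (b : Bool) : sg b * sg b = 1 := by cases b <;> rfl

theorem sg_abs (b : Bool) (x : ℤ) : |sg b * x| = |x| := by cases b <;> simp [sg]

/-- Signed permutation of the coordinates. -/
def sp {k : ℕ} (π : Equiv.Perm (Fin (k + 2))) (σ : Fin (k + 2) → Bool) : Pt k ≃ Pt k where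
  toFun x := fun i => sg (σ i) * x (π i)
  invFun x := fun i => sg (σ (π.symm i)) * x (π.symm i)
  left_inv x := by
    funext i
    simp only [Equiv.apply_symm_apply]
    rw [← mul_assoc, sg_mul, one_mul]
  right_inv x := by
    funext i
    simp only [Equiv.symm_apply_apply]
    rw [← mul_assoc, sg_mul, one_mul]

theorem sp_apply {k : ℕ} (π : Equiv.Perm (Fin (k + 2))) (σ : Fin (k + 2) → Bool) (x : Pt k)
    (i : Fin (k + 2)) : sp π σ x i = sg (σ i) * x (π i) := rfl

theorem sp_symm {k : ℕ} (π : Equiv.Perm (Fin (k + 2))) (σ : Fin (k + 2) → Bool) (x : Pt k) :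
    (sp π σ).symm x = sp π.symm (fun i => σ (π.symm i)) x := rfl

theorem sp_sub {k : ℕ} (π : Equiv.Perm (Fin (k + 2))) (σ : Fin (k + 2) → Bool) (x y : Pt k) :
    sp π σ x - sp π σ y = sp π σ (x - y) := by
  funext i
  simp only [Pi.sub_apply, sp_apply]
  ring

theorem good_neg {k : ℕ} {N : Finset (Pt k)} {ρ : ℕ} (h : GoodN N ρ) {z : Pt k} (hz : z ∈ N)
    (S : Finset (Fin (k + 2))) : (fun i => if i ∈ S then -z i else z i) ∈ N := by
  classical
  induction S using Finset.induction_on with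
  | empty => simpa using hz
  | insert a S ha ih =>
    have h1 := h.neg _ ih a
    have h2 : Function.update (fun i => if i ∈ S then -z i else z i) a
        (-((fun i => if i ∈ S then -z i else z i) a)) =
        fun i => if i ∈ insert a S then -z i else z i := by
      funext i
      by_cases hi : i = a
      · subst hi
        simp [ha]
      · simp [hi]
    rwa [h2] at h1

theorem good_sp {k : ℕ} {N : Finset (Pt k)} {ρ : ℕ} (h : GoodN N ρ)
    (π : Equiv.Perm (Fin (k + 2))) (σ : Fin (k + 2) → Bool) {z : Pt k} (hz : z ∈ N) :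
    sp π σ z ∈ N := by
  classical
  have h1 := good_neg h (h.perm z hz π) (Finset.univ.filter (fun i => σ i = false))
  have h2 : (fun i => if i ∈ Finset.univ.filter (fun i => σ i = false) then
      -(fun i => z (π i)) i else (fun i => z (π i)) i) = sp π σ z := by
    funext i
    rw [sp_apply]
    cases hσ : σ i <;> simp [hσ, sg]
  rwa [h2] at h1

theorem mem_bx_sp {k : ℕ} (π : Equiv.Perm (Fin (k + 2))) (σ : Fin (k + 2) → Bool) (x : Pt k)
    (n : ℕ) : sp π σ x ∈ bx (0 : Pt k) n ↔ x ∈ bx (0 : Pt k) n := by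
  simp only [mem_bx, Pi.zero_apply, sub_zero, sp_apply, sg_abs]
  constructor
  · intro h i
    have := h (π.symm i)
    rwa [Equiv.apply_symm_apply] at this
  · intro h i
    exact h _

theorem conn_sp {k : ℕ} {N : Finset (Pt k)} {ρ : ℕ} (h : GoodN N ρ)
    (π : Equiv.Perm (Fin (k + 2))) (σ : Fin (k + 2) → Bool) {A B : Set (Pt k)}
    (hAB : ∀ x ∈ A, sp π σ x ∈ B) {x y : Pt k} (hc : Conn N A x y) :
    Conn N B (sp π σ x) (sp π σ y) := by
  induction hc with
  | refl => exact Relation.ReflTransGen.refl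
  | tail _ huv ih =>
    refine Relation.ReflTransGen.tail ih ⟨?_, hAB _ huv.2⟩
    rw [sp_sub]
    exact good_sp h π σ huv.1

theorem hit_sp {k : ℕ} {N : Finset (Pt k)} {ρ : ℕ} (h : GoodN N ρ)
    (π : Equiv.Perm (Fin (k + 2))) (σ : Fin (k + 2) → Bool) (m : ℕ) (A : Finset (Pt k))
    (x : Pt k) : Hit N m (A.map (sp π σ).toEmbedding) (sp π σ x) ↔ Hit N m A x := by
  constructor
  · rintro ⟨s, hs, hc⟩
    have h1 := conn_sp h π.symm (fun i => σ (π.symm i)) (B := ↑A) (fun y hy => by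
      rw [Finset.coe_map] at hy
      obtain ⟨z, hz, rfl⟩ := hy
      rw [Equiv.coe_toEmbedding, ← sp_symm, Equiv.symm_apply_apply]
      exact hz) hc
    rw [← sp_symm, ← sp_symm, Equiv.symm_apply_apply] at h1
    refine ⟨_, ?_, h1⟩
    rw [sp_symm, mem_bx_sp]
    exact hs
  · rintro ⟨s, hs, hc⟩
    refine ⟨sp π σ s, (mem_bx_sp π σ s m).2 hs, conn_sp h π σ (fun y hy => ?_) hc⟩
    rw [Finset.coe_map]
    exact ⟨y, hy, rfl⟩

theorem cnt_sp {k : ℕ} {N : Finset (Pt k)} {ρ : ℕ} (h : GoodN N ρ)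
    (π : Equiv.Perm (Fin (k + 2))) (σ : Fin (k + 2) → Bool) (m : ℕ) (S A : Finset (Pt k)) :
    cnt N m (S.map (sp π σ).toEmbedding) (A.map (sp π σ).toEmbedding) = cnt N m S A := by
  classical
  unfold cnt
  rw [Finset.filter_map, Finset.card_map]
  congr 1
  refine Finset.filter_congr fun x _ => ?_
  exact hit_sp h π σ m A x

theorem map_bx {k : ℕ} (π : Equiv.Perm (Fin (k + 2))) (σ : Fin (k + 2) → Bool) (n : ℕ) :
    (bx (0 : Pt k) n).map (sp π σ).toEmbedding = bx 0 n := by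
  ext y
  rw [Finset.mem_map_equiv, sp_symm, mem_bx_sp]

theorem hit_mono {k : ℕ} {N : Finset (Pt k)} {m : ℕ} {A B : Finset (Pt k)} (h : A ⊆ B)
    {x : Pt k} (hx : Hit N m A x) : Hit N m B x := by
  obtain ⟨s, hs, hc⟩ := hx
  refine ⟨s, hs, ?_⟩
  induction hc with
  | refl => exact Relation.ReflTransGen.refl
  | tail _ huv ih => exact Relation.ReflTransGen.tail ih ⟨huv.1, h huv.2⟩

theorem cnt_mono {k : ℕ} {N : Finset (Pt k)} {m : ℕ} {A B : Finset (Pt k)} (S : Finset (Pt k))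
    (h : A ⊆ B) : cnt N m S A ≤ cnt N m S B := by
  classical
  unfold cnt
  refine Finset.card_le_card fun x hx => ?_
  rw [Finset.mem_filter] at hx ⊢
  exact ⟨hx.1, hit_mono h hx.2⟩

/-- The image of the orthant of the face. -/
noncomputable def fa {k : ℕ} (n ρ : ℕ) (i : Fin (k + 2) × (Fin (k + 2) → Bool)) :
    Finset (Pt k) := (fac k n ρ).map (sp (Equiv.swap 0 i.1) i.2).toEmbedding

theorem lay_sub {k n ρ : ℕ} (hρ : ρ ≤ n) :
    lay k n ρ ⊆ Finset.univ.biUnion (fa (k := k) n ρ) := by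
  classical
  intro x hx
  have hx0 := hx
  unfold lay at hx
  rw [Finset.mem_sdiff, mem_bx, mem_bx] at hx
  obtain ⟨hx1, hx2⟩ := hx
  push Not at hx2
  obtain ⟨a, ha⟩ := hx2
  rw [Pi.zero_apply, sub_zero, Nat.cast_sub hρ] at ha
  refine Finset.mem_biUnion.2 ⟨(a, fun i => decide (0 ≤ x i)), Finset.mem_univ _, ?_⟩
  unfold fa
  rw [Finset.mem_map_equiv, fac, Finset.mem_filter]
  have hs : ∀ i, sg (decide (0 ≤ x i)) * x i = |x i| := by
    intro i
    by_cases h : 0 ≤ x i
    · simp [sg, h, abs_of_nonneg h]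
    · simp [sg, h, abs_of_neg (not_le.1 h)]
  have hy : ∀ i, (sp (Equiv.swap 0 a) (fun i => decide (0 ≤ x i))).symm x i =
      |x (Equiv.swap 0 a i)| := by
    intro i
    rw [sp_symm, sp_apply, Equiv.symm_swap]
    exact hs _
  refine ⟨?_, ?_, ?_⟩
  · unfold lay at hx0 ⊢
    rw [sp_symm, Finset.mem_sdiff, mem_bx_sp, mem_bx_sp]
    exact Finset.mem_sdiff.1 hx0
  · rw [hy, Equiv.swap_apply_left]
    exact ha
  · intro i
    rw [hy]
    exact abs_nonneg _

theorem orth (hPsh : PshStmt) : OrthStmt := by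
  classical
  intro k N ρ p hN hp hp1 η hη
  refine ⟨η ^ ((k + 2) * 2 ^ (k + 2)), pow_pos hη _, fun n m M₀ hρ hyp => ?_⟩
  set K := (k + 2) * 2 ^ (k + 2) with hK
  have hK0 : K ≠ 0 := by positivity
  have hU : U01 (bx (0 : Pt k) n) (fun _ => p) := fun _ _ => ⟨hp.le, hp1.le⟩
  set δ := PS (bx (0 : Pt k) n) (fun _ => p) (fun A => ¬ M₀ ≤ cnt N m (fac k n ρ) A) with hδ
  have hδ0 : 0 ≤ δ := PS_nonneg hU _
  have hsym : ∀ i : Fin (k + 2) × (Fin (k + 2) → Bool),
      PS (bx (0 : Pt k) n) (fun _ => p) (fun A => ¬ M₀ ≤ cnt N m (fa n ρ i) A) = δ := by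
    intro i
    conv_lhs => rw [← map_bx (Equiv.swap 0 i.1) i.2 n]
    rw [PS_map, hδ]
    refine PS_congr (fun _ _ => rfl) fun A _ => ?_
    unfold fa
    rw [cnt_sp hN]
  have hharris := (hPsh (Pt k) (bx (0 : Pt k) n) (fun _ => p) hU
    (Fin (k + 2) × (Fin (k + 2) → Bool)) Finset.univ
    (fun i A => ¬ M₀ ≤ cnt N m (fa n ρ i) A)).2 (fun i _ A B hAB hB hA =>
      hB (hA.trans (cnt_mono _ hAB)))
  rw [Finset.prod_congr rfl (fun i _ => hsym i), Finset.prod_const, Finset.card_univ,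
    Fintype.card_prod, Fintype.card_pi_const, Fintype.card_bool, Fintype.card_fin, ← hK] at hharris
  have hle : PS (bx (0 : Pt k) n) (fun _ => p)
      (fun A => ∀ i ∈ (Finset.univ : Finset (Fin (k + 2) × (Fin (k + 2) → Bool))),
        ¬ M₀ ≤ cnt N m (fa n ρ i) A) ≤
      PS (bx (0 : Pt k) n) (fun _ => p) (fun A => ¬ K * M₀ ≤ cnt N m (lay k n ρ) A) := by
    refine PS_mono hU fun A _ hA hcon => ?_
    have h1 : cnt N m (lay k n ρ) A ≤ ∑ i : Fin (k + 2) × (Fin (k + 2) → Bool),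
        cnt N m (fa n ρ i) A := by
      unfold cnt
      refine le_trans (Finset.card_le_card ?_) Finset.card_biUnion_le
      intro x hx
      rw [Finset.mem_filter] at hx
      obtain ⟨i, hi, hxi⟩ := Finset.mem_biUnion.1 (lay_sub hρ hx.1)
      exact Finset.mem_biUnion.2 ⟨i, hi, Finset.mem_filter.2 ⟨hxi, hx.2⟩⟩
    have h2 : ∑ i : Fin (k + 2) × (Fin (k + 2) → Bool), cnt N m (fa n ρ i) A <
        ∑ _i : Fin (k + 2) × (Fin (k + 2) → Bool), M₀ := by
      refine Finset.sum_lt_sum_of_nonempty Finset.univ_nonempty fun i hi => ?_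
      exact not_le.1 (hA i hi)
    rw [Finset.sum_const, Finset.card_univ, Fintype.card_prod, Fintype.card_pi_const,
      Fintype.card_bool, Fintype.card_fin, smul_eq_mul, ← hK] at h2
    omega
  have hfin : δ ^ K ≤ η ^ K := by
    refine hharris.trans (hle.trans ?_)
    rw [PS_not]
    linarith
  have h3 : δ ≤ η := (pow_le_pow_iff_left₀ hδ0 hη.le hK0).1 hfin
  have h4 : PS (bx (0 : Pt k) n) (fun _ => p) (fun A => M₀ ≤ cnt N m (fac k n ρ) A) = 1 - δ := by
    rw [hδ, PS_not]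
    ring
  rw [h4]
  linarith

end Pool.Agent.TP.H18
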