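import Pool.Agent.Helper18_TP.Basic

/-!
# RF: refreshing in dense boxes
-/

set_option autoImplicit false

namespace Pool.Agent.TP.H18

open MeasureTheory ProbabilityTheory Filter
open scoped ENNReal Topology

/-! ### Independence of the node data -/

theorem conf_nodes {k : ℕ} (lam s : ℝ) (S : Finset (Pt k × ℕ)) (A : Pt k × ℕ → Set (Mk k))
    (hA : ∀ v, MeasurableSet (A v)) :
    confLaw k lam s {ω | ∀ v ∈ S, (ω v.1).2 v.2 ∈ A v} = ∏ v ∈ S, markLaw k s (A v) := by
  classical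
  set Z := S.image Prod.fst with hZ
  set Sz : Pt k → Finset ℕ := fun z => (S.filter (fun v => v.1 = z)).image Prod.snd with hSz
  have hmem : ∀ z j, j ∈ Sz z ↔ (z, j) ∈ S := by
    intro z j
    rw [hSz]
    simp only [Finset.mem_image, Finset.mem_filter, Prod.exists]
    constructor
    · rintro ⟨a, b, ⟨h1, h2⟩, h3⟩
      rw [← h2, ← h3]
      exact h1
    · intro h
      exact ⟨z, j, ⟨h, rfl⟩, rfl⟩
  set t : Pt k → Set (ℕ × (ℕ → Mk k)) := fun z =>
    Set.univ ×ˢ Set.pi (Sz z : Set ℕ) (fun j => A (z, j)) with ht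
  have htm : ∀ z ∈ Z, MeasurableSet (t z) := by
    intro z _
    exact MeasurableSet.univ.prod (MeasurableSet.pi (Finset.countable_toSet _) fun j _ => hA _)
  have h1 : {ω : Cf k | ∀ v ∈ S, (ω v.1).2 v.2 ∈ A v} = Set.pi (Z : Set (Pt k)) t := by
    ext ω
    simp only [Set.mem_ofPred_eq, Set.mem_pi]
    constructor
    · intro h z _
      refine ⟨Set.mem_univ _, fun j hj => ?_⟩
      exact h (z, j) ((hmem z j).1 (Finset.mem_coe.1 hj))
    · intro h v hv
      have h2 : v.1 ∈ (Z : Set (Pt k)) := Finset.mem_coe.2 (Finset.mem_image_of_mem _ hv)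
      exact (h v.1 h2).2 v.2 (Finset.mem_coe.2 ((hmem v.1 v.2).2 hv))
  rw [h1]
  unfold confLaw
  rw [Measure.infinitePi_pi _ htm]
  have h2 : ∀ z ∈ Z, ((poissonMeasure (Real.toNNReal lam)).prod
      (Measure.infinitePi (fun _ : ℕ => markLaw k s))) (t z) =
      ∏ v ∈ S.filter (fun v => v.1 = z), markLaw k s (A v) := by
    intro z _
    rw [ht]
    simp only
    rw [Measure.prod_prod, measure_univ, one_mul, Measure.infinitePi_pi _ (fun j _ => hA _)]
    rw [hSz]
    simp only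
    rw [Finset.prod_image]
    · refine Finset.prod_congr rfl fun v hv => ?_
      rw [Finset.mem_filter] at hv
      rw [← hv.2]
    · intro a ha b hb hab
      rw [Finset.coe_filter] at ha hb
      exact Prod.ext (ha.2.trans hb.2.symm) hab
  rw [Finset.prod_congr rfl h2]
  exact Finset.prod_fiberwise_of_maps_to (fun v hv => Finset.mem_image_of_mem _ hv) _

theorem conf_nodes_inj {k : ℕ} (lam s : ℝ) {X : Type} (ν : X → Pt k × ℕ)
    (hν : Function.Injective ν) (S : Finset X) (A : X → Set (Mk k))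
    (hA : ∀ v, MeasurableSet (A v)) :
    (confLaw k lam s).real {ω | ∀ x ∈ S, (ω (ν x).1).2 (ν x).2 ∈ A x} =
      ∏ x ∈ S, (markLaw k s).real (A x) := by
  classical
  have h1 := conf_nodes lam s (S.image ν) (Function.extend ν A (fun _ => Set.univ)) (by
    intro v
    by_cases h : ∃ x, ν x = v
    · obtain ⟨x, rfl⟩ := h
      rw [hν.extend_apply]
      exact hA x
    · rw [Function.extend_apply' _ _ _ h]
      exact MeasurableSet.univ)
  rw [Finset.prod_image (fun a _ b _ h => hν h)] at h1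
  have h2 : {ω : Cf k | ∀ v ∈ S.image ν, (ω v.1).2 v.2 ∈
      Function.extend ν A (fun _ => Set.univ) v} =
      {ω | ∀ x ∈ S, (ω (ν x).1).2 (ν x).2 ∈ A x} := by
    ext ω
    simp only [Set.mem_ofPred_eq, Finset.forall_mem_image, hν.extend_apply]
  rw [h2] at h1
  rw [Measure.real, h1, ENNReal.toReal_prod]
  refine Finset.prod_congr rfl fun x _ => ?_
  rw [hν.extend_apply, Measure.real]

/-! ### Increments -/

theorem walkLaw_shift (k : ℕ) (s : ℝ) (T : ℕ) :
    (walkLaw k s).map (fun y i => y (T + i)) = walkLaw k s := by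
  unfold walkLaw
  exact Measure.map_infinitePi_infinitePi_of_inj (P := fun _ : ℕ => stepLaw k s)
    (f := fun i : ℕ => T + i) (fun a b h => Nat.add_left_cancel h)

/-- Position after the steps `T, …, T + Δ - 1`. -/
def jump {k : ℕ} (T Δ : ℕ) (x : Sp k) (y : ℕ → Sp k) : Sp k :=
  fun a => x a + ∑ i ∈ Finset.Ico T (T + Δ), y i a

theorem jump_eq {k : ℕ} (T Δ : ℕ) (x : Sp k) (y : ℕ → Sp k) :
    jump T Δ x y = walk x (fun i => y (T + i)) Δ := by
  funext a
  unfold jump walk
  rw [Finset.sum_Ico_eq_sum_range, Nat.add_sub_cancel_left]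

theorem meas_jump {k : ℕ} (T Δ : ℕ) (x : Sp k) : Measurable (jump T Δ x) := by
  unfold jump
  refine measurable_pi_lambda _ fun a => ?_
  refine measurable_const.add (Finset.measurable_sum _ fun j _ => ?_)
  exact (measurable_pi_apply a).comp (measurable_pi_apply j)

theorem jump_law {k : ℕ} (s : ℝ) (T Δ : ℕ) (x : Sp k) {S : Set (Sp k)} (hS : MeasurableSet S) :
    walkLaw k s {y | jump T Δ x y ∈ S} = walkLaw k s {y | walk x y Δ ∈ S} := by
  have hm : MeasurableSet {y : ℕ → Sp k | walk x y Δ ∈ S} :=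
    ((meas_walk Δ).comp (measurable_const.prodMk measurable_id)) hS
  have hm2 : Measurable (fun (y : ℕ → Sp k) i => y (T + i)) :=
    measurable_pi_lambda _ fun i => measurable_pi_apply _
  conv_rhs => rw [← walkLaw_shift k s T, Measure.map_apply hm2 hm]
  congr 1
  ext y
  simp only [Set.mem_ofPred_eq, Set.mem_preimage, jump_eq]

theorem pos_glue {k : ℕ} (T Δ : ℕ) (ω₁ ω₂ : Cf k) (v : Pt k × ℕ) :
    pos (glue T (ω₁, ω₂)) (T + Δ) v = jump T Δ (pos ω₁ T v) ((ω₂ v.1).2 v.2).2 := by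
  funext a
  unfold jump pos walk glue
  simp only
  rw [← Finset.sum_range_add_sum_Ico _ (Nat.le_add_right T Δ), ← add_assoc]
  refine congrArg₂ (· + ·) (congrArg₂ (· + ·) rfl ?_) ?_
  · refine Finset.sum_congr rfl fun i hi => ?_
    rw [if_pos (Finset.mem_range.1 hi)]
  · refine Finset.sum_congr rfl fun i hi => ?_
    rw [if_neg (not_lt.2 (Finset.mem_Ico.1 hi).1)]

/-! ### Cells -/

/-- The cell of side `h` that contains `x`. -/
noncomputable def cellOf {k : ℕ} (h : ℝ) (w x : Sp k) : Pt k := fun a => ⌊(x a - w a) / h⌋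

theorem mem_cel {k : ℕ} {h : ℝ} (hh : 0 < h) (w x : Sp k) (c : Pt k) :
    x ∈ cel h w c ↔ cellOf h w x = c := by
  unfold cel cube cellOf
  rw [funext_iff]
  simp only [Set.mem_ofPred_eq]
  refine forall_congr' fun a => ?_
  rw [Int.floor_eq_iff, le_div_iff₀ hh, div_lt_iff₀ hh]
  constructor
  · rintro ⟨h1, h2⟩
    constructor <;> nlinarith
  · rintro ⟨h1, h2⟩
    constructor <;> nlinarith

theorem meas_cellOf {k : ℕ} (h : ℝ) (w : Sp k) : Measurable (cellOf h w) := by
  unfold cellOf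
  refine measurable_pi_lambda _ fun a => ?_
  exact Int.measurable_floor.comp (((measurable_pi_apply a).sub_const _).div_const _)

theorem meas_cel {k : ℕ} (h : ℝ) (w : Sp k) (c : Pt k) : MeasurableSet (cel h w c) :=
  meas_cube _ _

theorem card_bx {k : ℕ} (n : ℕ) : (bx (0 : Pt k) n).card = (2 * n + 1) ^ (k + 2) := by
  unfold bx
  rw [Pi.card_Icc]
  simp only [Int.card_Icc, Pi.zero_apply, Finset.prod_const, Finset.card_univ, Fintype.card_fin]
  congr 1
  omega

theorem mark_snd {k : ℕ} (s : ℝ) {Q : Set (ℕ → Sp k)} :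
    markLaw k s {m | m.2 ∈ Q} = walkLaw k s Q := by
  have h1 : {m : Mk k | m.2 ∈ Q} = Set.univ ×ˢ Q := by
    ext m
    simp
  unfold markLaw
  rw [h1, Measure.prod_prod, measure_univ, one_mul]

theorem eps_choice {a p : ℝ} (hp : 0 < p) (h : p < 1 - Real.exp (-a)) :
    ∃ ε : ℝ, 0 < ε ∧ ε < 1 ∧ p ≤ 1 - Real.exp (-((1 - ε) ^ 3 * a)) := by
  have hE := Real.exp_pos (-a)
  have h1 : 0 < 1 - p := by linarith
  have h2 : -Real.log (1 - p) < a := by
    have h3 := Real.log_lt_log hE (show Real.exp (-a) < 1 - p by linarith)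
    rw [Real.log_exp] at h3
    linarith
  have h4 : 0 < -Real.log (1 - p) := by
    have := Real.log_neg h1 (by linarith)
    linarith
  have ha : 0 < a := h4.trans h2
  set ρ := -Real.log (1 - p) / a with hρ
  have hρ0 : 0 < ρ := div_pos h4 ha
  have hρ1 : ρ < 1 := (div_lt_one ha).2 h2
  refine ⟨(1 - ρ) / 3, by linarith, by linarith, ?_⟩
  have h5 : ρ ≤ (1 - (1 - ρ) / 3) ^ 3 := by
    nlinarith [sq_nonneg (1 - ρ), mul_pos (sub_pos.2 hρ1) (sub_pos.2 hρ1),
      mul_pos (mul_pos (sub_pos.2 hρ1) (sub_pos.2 hρ1)) hρ0]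
  have h6 : -Real.log (1 - p) ≤ (1 - (1 - ρ) / 3) ^ 3 * a := by
    have h7 : ρ * a = -Real.log (1 - p) := by
      rw [hρ]
      field_simp
    rw [← h7]
    exact mul_le_mul_of_nonneg_right h5 ha.le
  have h8 : Real.exp (-((1 - (1 - ρ) / 3) ^ 3 * a)) ≤ 1 - p := by
    rw [← Real.le_log_iff_exp_le h1]
    linarith
  linarith

theorem rf (hD : DomStmt) (hP : PoiStmt) (hR : RieStmt) : RfStmt := by
  classical
  intro k lam s h p hlam hs hh hp hp1
  obtain ⟨ε, hε0, hε1, hε⟩ := eps_choice hp hp1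
  obtain ⟨κ₀, Cm, hκ₀, hκs, hRie⟩ := hR k s ε hs hε0 hε1
  obtain ⟨c, hc, hPoi⟩ := hP ε hε0 hε1
  refine ⟨ε, κ₀, c * ((1 - ε) * lam), Cm, hε0, hε1, hκ₀, hκs,
    mul_pos hc (mul_pos (by linarith) hlam), ?_⟩
  intro T Δ R κ w ω₁ hΔ hκ hκ1 hκ2 hmany E hE
  set r : ℕ := ⌈h * (R + 1) / κ⌉₊ + Cm with hr
  set B : Finset (Pt k) := bx (0 : Pt k) r with hB
  set M : ℕ := ⌈(1 - ε) * lam * κ ^ (k + 2)⌉₊ with hM
  obtain ⟨f, hf0, hf1, hf2⟩ := hRie Δ κ h hΔ hκ hκ1 hκ2 hh w
  -- the chosen nodes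
  have hnodes : ∀ b : {j // j ∈ B}, ∃ e : Fin M → Pt k × ℕ, Function.Injective e ∧
      ∀ i, alive ω₁ (e i) ∧ pos ω₁ T (e i) ∈ cube (fun a => w a + κ * (b : Pt k) a) κ := by
    intro b
    obtain ⟨F, hF1, hF2⟩ := hmany b b.2
    obtain ⟨t, ht1, ht2⟩ := Finset.exists_subset_card_eq hF1
    refine ⟨fun i => ((t.equivFinOfCardEq ht2).symm i : Pt k × ℕ), ?_, fun i => ?_⟩
    · intro i j hij
      exact (t.equivFinOfCardEq ht2).symm.injective (Subtype.ext hij)
    · exact hF2 _ (ht1 ((t.equivFinOfCardEq ht2).symm i).2)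
  choose e he1 he2 using hnodes
  set ν : {j // j ∈ B} × Fin M → Pt k × ℕ := fun x => e x.1 x.2 with hν
  have hcell : ∀ x : {j // j ∈ B} × Fin M, cellOf κ w (pos ω₁ T (ν x)) = (x.1 : Pt k) := by
    intro x
    exact (mem_cel hκ w _ _).1 (he2 x.1 x.2).2
  have hνi : Function.Injective ν := by
    intro x y hxy
    have h1 : x.1 = y.1 := by
      apply Subtype.ext
      rw [← hcell x, ← hcell y, hxy]
    have h2 : e x.1 x.2 = e x.1 y.2 := by
      have h3 : e x.1 x.2 = e y.1 y.2 := hxy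
      rw [h3, h1]
    exact Prod.ext h1 (he1 x.1 h2)
  -- the cells of the nodes after the refreshment
  set φ : {j // j ∈ B} × Fin M → Mk k → Pt k := fun x m =>
    cellOf h w (jump T Δ (pos ω₁ T (ν x)) m.2) with hφ
  have hφm : ∀ x, Measurable (φ x) := fun x =>
    (meas_cellOf h w).comp ((meas_jump T Δ _).comp measurable_snd)
  set Y : {j // j ∈ B} × Fin M → Cf k → Option (Pt k) := fun x ω =>
    some (φ x ((ω (ν x).1).2 (ν x).2)) with hY
  have hset : ∀ (x : {j // j ∈ B} × Fin M) (g : Set (Option (Pt k))),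
      MeasurableSet {m : Mk k | some (φ x m) ∈ g} := by
    intro x g
    exact hφm x (Set.to_countable {c : Pt k | some c ∈ g}).measurableSet
  have hnm : ∀ v : Pt k × ℕ, Measurable (fun ω : Cf k => (ω v.1).2 v.2) := fun v =>
    (measurable_pi_apply v.2).comp (measurable_snd.comp (measurable_pi_apply v.1))
  have hind : ∀ (S : Finset ({j // j ∈ B} × Fin M))
      (g : {j // j ∈ B} × Fin M → Set (Option (Pt k))),
      (confLaw k lam s).real {ω | ∀ x ∈ S, Y x ω ∈ g x} =
      ∏ x ∈ S, (markLaw k s).real {m : Mk k | some (φ x m) ∈ g x} := by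
    intro S g
    exact conf_nodes_inj lam s ν hνi S (fun x => {m : Mk k | some (φ x m) ∈ g x})
      (fun x => hset x (g x))
  have hone : ∀ (x : {j // j ∈ B} × Fin M) (g : Set (Option (Pt k))),
      (confLaw k lam s).real {ω | Y x ω ∈ g} = (markLaw k s).real {m : Mk k | some (φ x m) ∈ g} := by
    intro x g
    have h1 := hind {x} (fun _ => g)
    simpa using h1
  have hprob : ∀ (x : {j // j ∈ B} × Fin M) (c : Pt k),
      (confLaw k lam s).real {ω | Y x ω = some c} =
      (walkLaw k s).real {y | walk (pos ω₁ T (ν x)) y Δ ∈ cel h w c} := by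
    intro x c
    have h1 := hone x {some c}
    have h2 : {ω : Cf k | Y x ω ∈ ({some c} : Set (Option (Pt k)))} = {ω | Y x ω = some c} := by
      ext ω
      simp
    rw [h2] at h1
    rw [h1, Measure.real, Measure.real]
    congr 1
    rw [← jump_law s T Δ _ (meas_cel h w c), ← mark_snd s]
    congr 1
    ext m
    simp only [Set.mem_ofPred_eq, Set.mem_singleton_iff, Option.some.injEq, hφ]
    exact (mem_cel hh w _ c).symm
  -- application of DOM
  set μ : ℝ := (1 - ε) * M with hμ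
  have hMx : (1 - ε) * lam * κ ^ (k + 2) ≤ M := Nat.le_ceil _
  have hμ0 : 0 ≤ μ := mul_nonneg (by linarith) (Nat.cast_nonneg _)
  have hp1' : p < 1 := by
    have := Real.exp_pos (-(lam * h ^ (k + 2)))
    linarith
  have hsum : ∀ b : {j // j ∈ B}, ∑ c ∈ bx (0 : Pt k) R, f b c ≤ 1 := by
    intro b
    have hx0 : (fun a => w a + κ * (b : Pt k) a) ∈ cube (fun a => w a + κ * (b : Pt k) a) κ := by
      intro a
      exact ⟨le_refl _, by linarith⟩
    calc ∑ c ∈ bx (0 : Pt k) R, f b c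
        ≤ ∑ c ∈ bx (0 : Pt k) R, (walkLaw k s).real
          {y | walk (fun a => w a + κ * (b : Pt k) a) y Δ ∈ cel h w c} :=
          Finset.sum_le_sum fun c _ => hf1 b c _ hx0
      _ = (walkLaw k s).real (⋃ c ∈ bx (0 : Pt k) R,
          {y | walk (fun a => w a + κ * (b : Pt k) a) y Δ ∈ cel h w c}) := by
          rw [measureReal_biUnion_finset]
          · intro c _ c' _ hcc'
            rw [Function.onFun, Set.disjoint_left]
            intro y hy hy'
            rw [Set.mem_ofPred_eq, mem_cel hh] at hy hy'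
            exact hcc' (hy.symm.trans hy')
          · intro c _
            exact ((meas_walk Δ).comp (measurable_const.prodMk measurable_id)) (meas_cel h w c)
      _ ≤ 1 := measureReal_le_one
  have hdom := hD (Cf k) (confLaw k lam s) {j // j ∈ B} (Pt k) M Y (bx (0 : Pt k) R)
    (fun b c => f b c) μ p ?_ ?_ (fun b c => hf0 b c) hsum ?_ hμ0 hp.le hp1' ?_
    (fun A => E ↑A) ?_
  · -- conclusion
    have hsub : {ω₂ : Cf k | ¬ E (occ h w (T + Δ) (glue T (ω₁, ω₂)))} ⊆
        {ω | ¬ E ↑((bx (0 : Pt k) R).filter (fun c => ∃ x, Y x ω = some c))} := by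
      intro ω₂ hω hcon
      refine hω (hE.1 _ _ ?_ hcon)
      intro c hc
      rw [Finset.mem_coe, Finset.mem_filter] at hc
      obtain ⟨-, x, hx⟩ := hc
      refine ⟨ν x, (he2 x.1 x.2).1, ?_⟩
      rw [pos_glue, mem_cel hh]
      rw [hY] at hx
      simp only [Option.some.injEq, hφ] at hx
      exact hx
    refine (measureReal_mono hsub).trans (hdom.trans ?_)
    have hcard : (Fintype.card {j // j ∈ B} : ℝ) = (2 * (r : ℝ) + 1) ^ (k + 2) := by
      rw [Fintype.card_coe, hB, card_bx]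
      push_cast
      rfl
    rw [hcard]
    refine add_le_add le_rfl (mul_le_mul_of_nonneg_left ?_ (by positivity))
    refine (hPoi M μ hμ0 le_rfl).trans (Real.exp_le_exp.2 ?_)
    have := mul_le_mul_of_nonneg_left hMx hc.le
    nlinarith
  · intro x c'
    have h1 : {ω : Cf k | Y x ω = some c'} = (fun ω : Cf k => (ω (ν x).1).2 (ν x).2) ⁻¹'
        {m : Mk k | some (φ x m) ∈ ({some c'} : Set (Option (Pt k)))} := by
      ext ω
      simp [hY]
    rw [h1]
    exact hnm (ν x) (hset x _)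
  · intro S g
    rw [hind S g]
    exact Finset.prod_congr rfl fun x _ => (hone x (g x)).symm
  · intro x c' hc'
    rw [hprob x c']
    exact hf1 x.1 c' _ (he2 x.1 x.2).2
  · intro c' hc'
    refine hε.trans (sub_le_sub_left (Real.exp_le_exp.2 (neg_le_neg ?_)) _)
    have h1 := hf2 R c' hc'
    have h2 : ∑ b : {j // j ∈ B}, f b c' = ∑ j ∈ B, f j c' := Finset.sum_coe_sort B (fun j => f j c')
    rw [← Finset.mul_sum] at h1
    have h3 : 0 ≤ ∑ j ∈ B, f j c' := Finset.sum_nonneg fun j _ => hf0 j c'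
    change (1 - ε) ^ 3 * (lam * h ^ (k + 2)) ≤ μ * ∑ b : {j // j ∈ B}, f b c'
    rw [h2, hμ]
    have h4 : 0 < 1 - ε := by linarith
    calc (1 - ε) ^ 3 * (lam * h ^ (k + 2)) = (1 - ε) ^ 2 * lam * ((1 - ε) * h ^ (k + 2)) := by ring
      _ ≤ (1 - ε) ^ 2 * lam * (κ ^ (k + 2) * ∑ j ∈ B, f j c') :=
          mul_le_mul_of_nonneg_left h1 (by positivity)
      _ = (1 - ε) * ((1 - ε) * lam * κ ^ (k + 2)) * ∑ j ∈ B, f j c' := by ring
      _ ≤ (1 - ε) * M * ∑ j ∈ B, f j c' :=
          mul_le_mul_of_nonneg_right (mul_le_mul_of_nonneg_left hMx h4.le) h3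
  · intro A A' hAA' hEA
    exact hE.1 _ _ (Finset.coe_subset.2 hAA') hEA

end Pool.Agent.TP.H18
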